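import Pool.Agent.Lib.MP_651af7_nt.Et.Cov
import Pool.Agent.Lib.MP_651af7_nt.Bx.Min
import Pool.Agent.Lib.MP_651af7_nt.Av.MWNull

/-! The canonical height along an unramified map. -/

namespace Pool.Agent.Lib.MP_651af7_nt.Sc

open MvPolynomial Bx Av Et Module Height

theorem cv_det {K ν κ : Type} [Field K] [Fintype ν] {g : ℕ} (b : Fin (g + 1) → ν → K)
    (N : ν → κ → K) (S : Fin (g + 1) → κ) : minors (fun l i => ∑ a, N a i * b l a) S =
      ∑ A : Fin (g + 1) → ν, (∏ j, N (A j) (S j)) * minors b A := by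
  classical
  simp only [minors, Matrix.det_apply', Matrix.of_apply, Finset.prod_univ_sum,
    Fintype.piFinset_univ, Finset.mul_sum, Finset.prod_mul_distrib]
  exact Finset.sum_comm.trans (Finset.sum_congr rfl fun _ _ => Finset.sum_congr rfl fun _ _ =>
    mul_left_comm _ _ _)

variable {K ν κ T : Type} [Field K] [NumberField K] [Fintype ν] [Fintype κ] [Fintype T]
  {I₁ : Ideal (MvPolynomial ν K)} {I : Ideal (MvPolynomial κ K)} {d g : ℕ}
  {π : T → κ → MvPolynomial ν K}

attribute [local instance] MvPolynomial.gradedAlgebra in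
theorem cv_low (h : Cov I₁ I d π) (hI₁ : ∀ P ∈ I₁, ∀ d, homogeneousComponent d P ∈ I₁) :
    ∃ C : ℝ, ∀ y : ν → K, (∀ P ∈ I₁, eval y P = 0) →
      C + (d + 1 : ℕ) * logHeight y ≤ logHeight fun p : T × κ => eval y (π p.1 p.2) := by
  choose M hM using fun a : ν => null_cert (AlgebraicClosure K) I₁ (fun p : T × κ => π p.1 p.2)
    (X a) fun z hz h0 => by
      by_contra h1
      obtain ⟨t, l, h2⟩ := h.ne _ z (fun e => h1 ((aeval_X z a).trans (congrFun e a))) hz
      exact h2 (h0 (t, l))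
  choose H h1 h2 using fun a : ν => (hM a (∑ b, M b + (d + 1)) ((Finset.single_le_sum
    (fun _ _ => Nat.zero_le _) (Finset.mem_univ a)).trans (Nat.le_add_right _ _))).elim fun H hH =>
      homog_cert (fun d P hP => (decomposition.decompose'_apply P d).symm ▸ hI₁ P hP d)
        (fun p : T × κ => h.hom p.1 p.2) (isHomogeneous_X_pow a _) hH
  obtain ⟨C, hC⟩ := logHeight_eval_ge' (N := d + 1) (q := fun p : ν × T × κ => H p.1 p.2)
    fun p => h1 p.1 p.2
  refine ⟨C, fun y hy => hC _ fun a => ?_⟩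
  refine Eq.symm ?_
  simpa only [map_sub, map_pow, eval_X, map_sum, map_mul, sub_eq_zero] using hy _ (h2 a)

theorem cv_up (h : Cov I₁ I d π) : ∃ C : ℝ, ∀ (y : ν → K) (b : Fin (g + 1) → ν → K),
    logHeight (fun p : T × (Fin (g + 1) → κ) => minors (fun l i => dP y (b l) (π p.1 i)) p.2) ≤
      C + (g + 1) * (d * logHeight y) + logHeight (minors b) := by
  obtain ⟨C, hC⟩ := logHeight_eval_le' (N := ∑ _ : Fin (g + 1), d)
    (p := fun p : (T × (Fin (g + 1) → κ)) × (Fin (g + 1) → ν) =>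
      ∏ j, pderiv (p.2 j) (π p.1.1 (p.1.2 j)))
    fun p => IsHomogeneous.prod _ _ _ fun j _ => (h.hom _ _).pderiv
  refine ⟨totalWeight K * Real.log (Nat.card (Fin (g + 1) → ν)) + C, fun y b => ?_⟩
  have h1 := logHeight_linearMap_apply_le (fun p : (T × (Fin (g + 1) → κ)) × (Fin (g + 1) → ν) =>
    eval y (∏ j, pderiv (p.2 j) (π p.1.1 (p.1.2 j)))) (minors b)
  have h2 := hC y
  simp only [dP_eq_sum, cv_det b, aeval_eq_eval, ← map_prod]
  rw [Finset.sum_const, Finset.card_fin, smul_eq_mul] at h2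
  push_cast at h2
  linarith

/-- The differential of a family of polynomials. -/
noncomputable def cv_D (y : ν → K) (φ : κ → MvPolynomial ν K) : (ν → K) →ₗ[K] κ → K where
  toFun v i := dP y v (φ i)
  map_add' v w := funext fun i => dP_add y v w (φ i)
  map_smul' c v := funext fun i => dP_smul y v c (φ i)

/-- The minors of the differentials of the families `π t` on a frame of the tangent space are
`s t ^ (g + 1)` times the minors of a frame at the image. -/
theorem hK_cov {K ν κ T : Type} [Field K] [NumberField K] [Fintype ν] [Fintype κ] [Fintype T]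
    {I₁ : Ideal (MvPolynomial ν K)} {I : Ideal (MvPolynomial κ K)} {d g : ℕ}
    {π : T → κ → MvPolynomial ν K} (h : Cov I₁ I d π)
    (hp : ∀ t t' i j, π t i * π t' j - π t j * π t' i ∈ I₁)
    (hI₁ : ∀ P ∈ I₁, ∀ d, homogeneousComponent d P ∈ I₁)
    (hI : ∀ P ∈ I, ∀ d, homogeneousComponent d P ∈ I) : ∃ C : ℝ, ∀ (y : ν → K) (x : κ → K)
      (s : T → K), y ≠ 0 → (∀ P ∈ I₁, eval y P = 0) → x ≠ 0 →
      (∀ t i, eval y (π t i) = s t * x i) → finrank K (tsp I₁ y) = g + 1 →
      finrank K (tsp I x) = g + 1 → ∀ (β : Fin (g + 1) → κ → K) (β' : Fin (g + 1) → ν → K),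
      LinearIndependent K β → (∀ l, β l ∈ tsp I x) → LinearIndependent K β' →
      (∀ l, β' l ∈ tsp I₁ y) → hK x β ≤ hK y β' + C := by
  obtain ⟨C₁, h1⟩ := cv_low h hI₁
  obtain ⟨C₂, h2⟩ := cv_up (g := g) h
  refine ⟨C₂ - (g + 1) * C₁, fun y x s y0 yz x0 hs r1 r2 β β' b1 b2 b3 b4 => ?_⟩
  have yz' : ∀ P ∈ I₁, aeval y P = 0 := yz
  have hs' : ∀ t i, aeval y (π t i) = s t * x i := hs
  obtain ⟨t₀, i₀, h0⟩ := h.ne K y y0 yz
  have h3 := mul_ne_zero_iff.1 ((hs' t₀ i₀).symm.trans_ne h0)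
  have d0 : (d + 1 : ℕ) * s t₀ ≠ 0 := mul_ne_zero (Nat.cast_ne_zero.2 d.succ_ne_zero) h3.1
  have e0 : ∀ t i, dP y y (π t i) = (d + 1 : ℕ) * s t * x i := fun t i => by
    rw [dP_self (h.hom t i), hs', mul_assoc]
  obtain ⟨w, hw⟩ := bir3_ext (y := (⟨y, tsp_self hI₁ yz'⟩ : tsp I₁ y))
    (fun e => y0 (congrArg Subtype.val e)) g r1.ge
  have w1 := hw.map' (tsp I₁ y).subtype (Submodule.ker_subtype _)
  rw [Fin.comp_cons] at w1
  have w2 : ∀ l, (Fin.cons y fun l => w l : Fin (g + 1) → ν → K) l ∈ tsp I₁ y :=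
    Fin.cases (tsp_self hI₁ yz') fun l => (w l).2
  obtain ⟨c, c0, hc⟩ := minors_prop r1 b3 w1 b4 w2
  have w3 := w1.map (f := cv_D y (π t₀)) (Submodule.disjoint_def.2 fun v hv h4 => by
    obtain ⟨a, ha⟩ := Function.ne_iff.1 y0
    have h5 : ∀ i, dP y v (π t₀ i) = 0 := congrFun h4
    have h6 : v = (v a / y a) • y := funext fun b => by
      rw [Pi.smul_apply, smul_eq_mul, div_mul_eq_mul_div, eq_div_iff ha]
      exact h.inj K y v t₀ i₀ yz' h0 (Submodule.span_le.2 (Set.range_subset_iff.2 w2) hv)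
        (fun i j => by rw [h5, h5, zero_mul, zero_mul]) a b
    have h7 := h5 i₀
    rw [h6, dP_smul, e0] at h7
    rw [h6, (mul_eq_zero.1 h7).resolve_right (mul_ne_zero d0 h3.2), zero_smul])
  have e1 : tsp I x = tsp I fun i => aeval y (π t₀ i) := by
    rw [← tsp_smul hI (fun P hP => (bir1_aeval y P).symm.trans (yz' _ (h.map t₀ P hP)))
      (inv_ne_zero h3.1)]
    simp only [hs', inv_mul_cancel_left₀ h3.1]
  obtain ⟨c', c1, hc'⟩ := minors_prop r2 b1 w3 b2 fun l => e1 ▸ mem_tsp.2 fun P hP =>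
    (dP_comp y _ P).symm.trans (mem_tsp.1 (w2 l) _ (h.map t₀ P hP))
  have e2 : (fun p : T × (Fin (g + 1) → κ) => minors (fun l i => dP y
      ((Fin.cons y fun l => w l : Fin (g + 1) → ν → K) l) (π p.1 i)) p.2) =
      (c' / s t₀ ^ (g + 1)) • fun p => (s ^ (g + 1)) p.1 * minors β p.2 := by
    funext ⟨t, S⟩
    have h4 := minors_tri (s t / s t₀) (s t / s t₀) (fun l => (s t₀ * dP y (w l) (π t i₀) -
      s t * dP y (w l) (π t₀ i₀)) / (s t₀ * x i₀ * ((d + 1 : ℕ) * s t₀)))
      (fun i => dP y y (π t₀ i)) (fun l i => dP y (w l) (π t₀ i)) S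
    have h5 : minors (Fin.cons (fun i => dP y y (π t₀ i)) fun l i => dP y (w l) (π t₀ i)) S =
        c' * minors β S := (congrArg (minors · S) (Fin.comp_cons _ _ _).symm).trans (congrFun hc' S)
    rw [h5, ← pow_succ', div_pow] at h4
    refine (congrArg (minors · S) (funext₂ fun l i => ?_)).trans (h4.trans ?_)
    · refine Fin.cases ?_ (fun l => ?_) l
      · simp only [Fin.cons_zero, e0]
        field_simp [h3.1]
      · have h6 := mem_tsp.1 (w l).2 _ (hp t t₀ i i₀)
        rw [dP, map_sub, TrivSqZeroExt.snd_sub, ← dP, ← dP, dP_mul_pol, dP_mul_pol] at h6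
        simp only [hs'] at h6
        simp only [Fin.cons_succ, e0]
        field_simp [h3.1, h3.2]
        linear_combination h6
    · simp only [Pi.smul_apply, Pi.pow_apply, smul_eq_mul]
      ring
  have s0 : s ≠ 0 := fun e => h3.1 (congrFun e t₀)
  have h4 := h2 y (Fin.cons y fun l => w l)
  have h5 := h1 y yz
  rw [e2, logHeight_smul_eq_logHeight _ (div_ne_zero c1 (pow_ne_zero _ h3.1)),
    logHeight_fun_mul_eq (fun e => pow_ne_zero _ h3.1 (congrFun e t₀)) (minors_ne_zero b1),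
    logHeight_pow, show minors (Fin.cons y fun l => w l) = _ from hc,
    logHeight_smul_eq_logHeight _ c0] at h4
  simp only [hs, logHeight_fun_mul_eq s0 x0] at h5
  have h6 := mul_le_mul_of_nonneg_left h5 (by positivity : (0 : ℝ) ≤ g + 1)
  rw [hK, hK]
  push_cast at h4 h6
  linarith

end Pool.Agent.Lib.MP_651af7_nt.Sc
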