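import Pool.Agent.Lib.MP_651af7_nt.Sc.Loc
import Pool.Agent.Lib.MP_8865d3_nt.Ai.Core

/-! The inequality on the scroll. -/

namespace Pool.Agent.Lib.MP_651af7_nt.Sc

open MvPolynomial Matrix Height NumberField Module Av Pool.Agent.Lib.MP_8865d3_nt Ai Lr
open As (Aff vojtaA)
open Bx (lam hK tsp Smooth Var exists_lieBasis)
open Rt (Pl av mu)
open Ex (lx GenPos)
open Es (mn)

variable {L ι κ β γ Λ : Type} [Field L] [NumberField L] [Fintype ι] [Fintype κ] [Fintype β]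
  [Fintype γ] [Fintype Λ] {n N r b g : ℕ} {A : AV L ι} {σ : Fin r → ι → L}
  {B : Fin N → Fin (n + 1) → MvPolynomial ι L} {ρ : Λ → κ → MvPolynomial (Fin N) L}
  {D : γ → β → MvPolynomial κ L} {e : γ → ℕ} {ε : ℝ}

theorem affS (hσ : A.LieBasis σ) (hB : ∀ i j, (B i j).IsHomogeneous b)
    (hp : ∃ u, mn (of B) u ∉ A.I) (hρ : ∀ l, ∃ δ, ∀ i, (ρ l i).IsHomogeneous δ)
    (hD : ∀ s l, (D s l).IsHomogeneous (e s))
    (H : ∀ s, Dat A.I fun p : Λ × β => aeval (fun i => lin (B i)) (aeval (ρ p.1) (D s p.2)))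
    (hε : 0 < ε) : ∃ (Θ : MvPolynomial (ι ⊕ Fin (n + 1)) L) (d : ℕ × ℕ),
      Θ.IsWeightedHomogeneous (bw ι (Fin (n + 1))) d ∧ Θ ∉ pr A.I n ∧
      ∀ S : Finset (FinitePlace L), ∃ C : ℝ, ∀ (a : ι → L) (t : Fin (n + 1) → L) (y : Fin N → L)
        (x : κ → L) (s : Λ → L) (c : Pl S → γ), Aff A A.ao a → eval (Sum.elim a t) Θ ≠ 0 →
        (∀ j, t j ≠ 0) → (y = fun i => eval (Sum.elim a t) (lin (B i))) → y ≠ 0 → x ≠ 0 →
        (∀ l i, eval y (ρ l i) = s l * x i) → (∀ s, (fun l => eval x (D s l)) ≠ 0) →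
        (fun p : ι × (Fin (r + n + 1) → Fin N) =>
          eval (Sum.elim a t) (wr A σ (fun i => lin (B i)) p.1 p.2)) ≠ 0 →
        ∑ p, mu p * lam (av p) (D (c p)) (e (c p)) x +
          logHeight (fun p : ι × (Fin (r + n + 1) → Fin N) =>
            eval (Sum.elim a t) (wr A σ (fun i => lin (B i)) p.1 p.2)) ≤
          r * logHeight a + (r + n + 1) * logHeight y + ε * (logHeight a + logHeight y) + C := by
  classical
  choose q m s₀ u d Δ h1 h2 h3 h4 h5 h6 using H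
  obtain ⟨T, _, Z, dz, hZ⟩ := exists_zd hσ hB hp
  obtain ⟨u₀, h0⟩ := hp
  have hε' : 0 < ε / 3 := by positivity
  let E := Fintype.equivFin (Σ s, Fin (q s))
  let f : ∀ s, Fin (q s) ↪ Fin (Fintype.card (Σ s, Fin (q s))) := fun s =>
    (Function.Embedding.sigmaMk s).trans E.toEmbedding
  have hf : ∀ s j, u (E.symm (f s j)).1 (E.symm (f s j)).2 = u s j := fun s j =>
    congrArg (fun z : Σ s, Fin (q s) => u z.1 z.2) (E.symm_apply_apply ⟨s, j⟩)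
  obtain ⟨P, hP, t3⟩ := vojtaA A A.ao (of B) (fun j => u (E.symm j).1 (E.symm j).2) hε'
  obtain ⟨s₁, t1, t2⟩ := un_bih hP
  obtain ⟨Θ₂, s₂, C₂, t4, t5, t6⟩ := hZ.ht _ hε'
  obtain ⟨C₃, t7⟩ := lz_bd hZ.hom
  have hA := A.isPrime
  have := pr_prime hA n
  have h7 : ∀ s j, lin (u s j) ∉ pr A.I n := fun s j h => by
    obtain ⟨t, ht⟩ := h2 s j
    have h8 := (Sv.mem_map_iff _ _).1 h (Finsupp.single t 1)
    simp [cur_lin, coeff_sum, coeff_X, Finsupp.single_left_inj, ht] at h8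
  refine ⟨un P * (rename Sum.inl (Θ₂ * (mn (of B) u₀ * ∏ s, Δ s)) * ∏ s, ∏ j, lin (u s j)), _,
    t1.mul ((rename_inl_hom (t4.mul (IsHomogeneous.mul (det_whom (w := 1) (δ := fun _ => b)
      fun j a => hB (u₀ j) a) (IsHomogeneous.prod _ _ _ fun s _ => h3 s)))).mul
      (IsWeightedHomogeneous.prod _ _ _ fun s _ => IsWeightedHomogeneous.prod _ _ _
        fun j _ => lin_hom (h1 s j))), fun h => ?_, fun S => ?_⟩
  · simp [(pr_prime hA n).mul_mem_iff_mem_or_mem, t2, inl_mem', hA.mul_mem_iff_mem_or_mem, t5,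
      Ideal.IsPrime.prod_mem_iff, h0, h4, h7, -map_mul, -map_prod] at h
  obtain ⟨C₁, t8⟩ := t3 S
  obtain ⟨W, hW⟩ : ∃ W : ℝ, W = ∑ p : Pl S, (mu p : ℝ) := ⟨_, rfl⟩
  have hW0 : 0 ≤ W := hW ▸ Finset.sum_nonneg fun p _ => by positivity
  choose C₀ t9 using fun s => lam_loc A u₀ hρ (hD s) (h6 s) S
    (show 0 < ε / 3 / (W + 1) by positivity)
  obtain ⟨C₄, hC₄⟩ := Finite.exists_le C₀
  refine ⟨C₁ + C₂ + C₃ + W * C₄, fun a t y x s c ha hΘ ht hy y0 x0 hx xD hw => ?_⟩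
  simp only [map_mul (eval _), ev_inl', map_prod (eval _), mul_ne_zero_iff,
    Finset.prod_ne_zero_iff, Finset.mem_univ, forall_true_left] at hΘ
  obtain ⟨k1, ⟨k2, k3, k4⟩, k5⟩ := hΘ
  rw [← ev_cur, cur_un] at k1
  have a0 : a ≠ 0 := Function.ne_iff.2 ⟨A.ao, ha.1 ▸ one_ne_zero⟩
  have hy' : y = (of B).map (eval a) *ᵥ t := hy.trans (funext fun i => ev_lin (R := L) a t (B i))
  have k6 : ∀ s j, ∑ l, eval a (u s j l) * t l ≠ 0 := fun s j h =>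
    k5 s j ((ev_lin (R := L) a t _).trans h)
  obtain ⟨b2, b3⟩ := t6 a t a0 ha.2 k2 ht hw
  have b4 := t8 a t (fun p => Finset.univ.map (f (c p))) ha k1 (mn_ne hw)
    (fun p => genPos_map _ (fun j => by simp only [hf]) (h5 _ a (k4 _))) fun p j hj => k6 _ _
  simp only [ev_pb, ← hy] at b2 b3
  have b5 := t7 a y a0 y0 b2 ∅
  have b6 := Finset.sum_le_sum fun (p : Pl S) (_ : p ∈ Finset.univ) => mul_le_mul_of_nonneg_left
    ((t9 (c p) a t y x s p ha k3 (Function.ne_iff.2 ⟨0, ht 0⟩) hy' x0 hx (xD _) (k6 _)).trans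
      (add_le_add_right (add_le_add_right (hC₄ _) _) _)) (Nat.cast_nonneg (mu p))
  simp only [mul_add, Finset.sum_add_distrib, ← Finset.sum_mul, ← hW] at b6
  simp only [Finset.sum_map, hf, ← hy', Nat.cast_add, Nat.cast_one] at b4
  have b7 := logHeight_nonneg a
  have b8 := mul_nonneg hε.le (logHeight_nonneg y)
  have b9 : W * (ε / 3 / (W + 1)) ≤ ε / 3 := by
    rw [← mul_div_assoc, div_le_iff₀ (by positivity)]
    nlinarith
  have b10 := mul_le_mul_of_nonneg_right b9 b7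
  rw [Sv.isum_eq_sum, Finset.sum_empty] at b5
  linarith

theorem coreS (A : AV L ι) {I : Ideal (MvPolynomial (Fin N) L)} (hI : Var I) (hs : Smooth I g)
    (hB : ∀ i j, (B i j).IsHomogeneous b) {φ : ι → MvPolynomial (Fin N) L}
    {χ : Fin (n + 1) → MvPolynomial (Fin N) L} (hb : Bir I A.I φ χ fun i => lin (B i))
    (hρ : ∀ l, ∃ δ, ∀ i, (ρ l i).IsHomogeneous δ) (hD : ∀ s l, (D s l).IsHomogeneous (e s))
    (H : ∀ s, Dat A.I fun p : Λ × β => aeval (fun i => lin (B i)) (aeval (ρ p.1) (D s p.2)))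
    (hε : 0 < ε) : ∃ (Θ : MvPolynomial (Fin N) L) (d : ℕ), Θ.IsHomogeneous d ∧ Θ ∉ I ∧
      ∀ S : Finset (FinitePlace L), ∃ C : ℝ, ∀ (y : Fin N → L) (x : κ → L) (s : Λ → L)
        (c : Pl S → γ), y ≠ 0 → (∀ P ∈ I, eval y P = 0) → eval y Θ ≠ 0 → x ≠ 0 →
        (∀ l i, eval y (ρ l i) = s l * x i) → (∀ s, (fun l => eval x (D s l)) ≠ 0) →
        finrank L (tsp I y) = g + 1 ∧ ∀ w : Fin (g + 1) → Fin N → L, LinearIndependent L w →
        (∀ l, w l ∈ tsp I y) →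
        ∑ p, mu p * lam (av p) (D (c p)) (e (c p)) x + hK y w ≤ ε * logHeight y + C := by
  have hP := pr_prime A.isPrime n
  obtain ⟨Θ, t, t1, t2, t3⟩ := exists_good hb (isWeightedHomogeneous_one _ _)
    ((Ideal.ne_top_iff_one _).1 hP.ne_top)
  by_cases h0 : ∃ (x : Fin N → L) (p : ι → L) (y : Fin (n + 1) → L),
    Good I φ χ (fun i => lin (B i)) x p y ∧ ∀ j, y j ≠ 0
  swap
  · exact ⟨Θ, t, t1, t2, fun S => ⟨0, fun x _ _ _ x0 xz xΘ => (h0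
      ⟨_, _, _, (t3 x x0 xz xΘ).1, (t3 x x0 xz xΘ).2.1⟩).elim⟩⟩
  obtain ⟨x₀, p₀, y₀, g₀, g₁⟩ := h0
  obtain ⟨r, σ, hσ⟩ := exists_lieBasis A
  have hi : I.map (map (algebraMap L L)) = I := by
    rw [show (map (algebraMap L L) : MvPolynomial (Fin N) L →+* _) = RingHom.id _ from
      RingHom.ext fun p => map_id p, Ideal.map_id]
  obtain rfl := Lr.dim_eq hσ hI.hom hs (hi.symm ▸ hb) (hi.symm ▸ g₀)
  obtain ⟨a₁, h₁⟩ := hb.hom₁
  obtain ⟨C₁, k₁⟩ := logHeight_eval_le' h₁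
  have hε' : 0 < ε / (a₁ + 1) := by positivity
  obtain ⟨Θ₀, s, e1, e2, e3⟩ := affS hσ hB
    ((Function.ne_iff.1 (mn_ne (hK_one hσ hI.hom hb g₀ g₁).1)).imp fun u hu h =>
      hu ((Es.mn_map _ _ u).trans (g₀.zp hb _ h))) hρ hD H hε'
  obtain ⟨Θ, t, t1, t2, t3⟩ := exists_good hb (e1.mul (rename_inl_hom (isHomogeneous_X L A.ao)))
    fun h => (hP.mem_or_mem h).elim e2 fun h => Am.X_ao_notMem A (inl_mem'.1 h)
  refine ⟨Θ, t, t1, t2, fun S => ?_⟩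
  obtain ⟨C, e4⟩ := e3 S
  choose δ hδ using hρ
  refine ⟨C + ε / (a₁ + 1) * C₁, fun x z s c x0 xz xΘ z0 hz zD => ?_⟩
  obtain ⟨g, hy, t4⟩ := t3 x x0 xz xΘ
  refine ⟨g.rank hI.hom A.hom hb (by rw [Bx.tsp_eq, Bx.rank_tan hσ g.p0 (g.zp hb)]),
    fun β β1 β2 => ?_⟩
  have k₄ := k₁ x
  obtain ⟨n₂, e5⟩ := hK_one hσ hI.hom hb g hy
  obtain ⟨c', hc, e6⟩ := g.pt hb
  have pz := g.zp hb
  generalize (fun a => eval x (φ a)) = p at *
  obtain ⟨y, hy'⟩ : ∃ y, y = fun j => eval x (χ j) := ⟨_, rfl⟩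
  replace hy : ∀ j, y j ≠ 0 := fun j => hy' ▸ hy j
  rw [← hy'] at t4 n₂ e5 e6
  rw [map_mul, mul_ne_zero_iff, ev_inl', eval_X] at t4
  have hc₀ := inv_ne_zero t4.2
  have sc : ∀ {f : MvPolynomial (ι ⊕ Fin (n + 1)) L} {d : ℕ × ℕ},
      f.IsWeightedHomogeneous (bw ι (Fin (n + 1))) d →
      eval (Sum.elim (fun a => (p A.ao)⁻¹ * p a) y) f =
        (p A.ao)⁻¹ ^ d.1 * eval (Sum.elim p y) f := fun {f d} hf => by
    simpa only [one_mul, one_pow, mul_one, aeval_eq_eval] using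
      aeval_mul_of_bih (d := d.1) (e := d.2) hf (p A.ao)⁻¹ 1 p y
  have hc' : (p A.ao)⁻¹ ^ b * c' ≠ 0 := mul_ne_zero (pow_ne_zero _ hc₀) hc
  have ne : ∀ {α : Type} {z : α → L} {c : L}, c ≠ 0 → z ≠ 0 → (fun a => c * z a) ≠ 0 :=
    fun hc hz => smul_ne_zero hc hz
  have e7 := e4 (fun a => (p A.ao)⁻¹ * p a) y (fun i => (p A.ao)⁻¹ ^ b * c' * x i) z
    (fun l => ((p A.ao)⁻¹ ^ b * c') ^ δ l * s l) c
    ⟨inv_mul_cancel₀ t4.2, zero_mul_of_hom (R := L) A.hom pz _⟩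
    (by rw [sc e1]; exact mul_ne_zero (pow_ne_zero _ hc₀) t4.1) hy
    (funext fun i => by rw [sc (lin_hom (hB i)), mul_assoc, ← e6]; rfl) (ne hc' x0) z0
    (fun l i => by rw [eval_mul_of_hom (hδ l i), hz, ← mul_assoc]) zD
    (by simpa only [sc (wr_hom (fun i => lin_hom (hB i)) _ _)] using ne (pow_ne_zero _ hc₀) n₂)
  simp only [sc (wr_hom (fun i => lin_hom (hB i)) _ _), logHeight_mul_left hc',
    logHeight_mul_left hc₀, logHeight_mul_left (pow_ne_zero _ hc₀)] at e7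
  have e8 := mul_le_mul_of_nonneg_left k₄ hε'.le
  have e9 : ε / (a₁ + 1) * (a₁ * logHeight x + logHeight x) = ε * logHeight x := by
    field_simp
  rw [e5 β β1 β2]
  linarith

end Pool.Agent.Lib.MP_651af7_nt.Sc
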