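import Pool.Agent.Lib.MP_8865d3_nt.Ai.Defs

/-! Closed subschemes that lie in an arrangement of hyperplanes on the generic fibre. -/

namespace Pool.Agent.Lib.MP_651af7_nt.Sc

open MvPolynomial Pool.Agent.Lib.MP_8865d3_nt.Ai

variable {k L : Type} [Field k] [Field L] [Algebra k L] {ι τ ν κ β : Type} [Fintype τ]

/-- The pull-backs of the forms `D l` by all tuples `π` of forms of one degree that give the map
`f` on the variety of `I'` wherever they do not all vanish. -/
def pull (I' : Ideal (MvPolynomial ν L)) (f : (ν → L) → κ → L) (D : β → MvPolynomial κ k) :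
    Set (MvPolynomial ν L) :=
  {P | ∃ (d : ℕ) (π : κ → MvPolynomial ν L) (l : β), (∀ i, (π i).IsHomogeneous d) ∧
    (∀ y ≠ 0, (∀ Q ∈ I', eval y Q = 0) → ∃ c : L, ∀ i, eval y (π i) = c * f y i) ∧
    P = aeval π (D l)}

/-- On the generic fibre over the variety of `J`, the closed subscheme given by `E` is contained in
a sum of hyperplanes in general position. -/
def Arr (J : Ideal (MvPolynomial ι L)) (E : Set (MvPolynomial (ι ⊕ τ) L)) : Prop :=
  ∃ (q m : ℕ) (u : Fin q → τ → MvPolynomial ι L) (d : Fin q → ℕ),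
    (∀ j t, (u j t).IsHomogeneous (d j)) ∧
    (∀ T : Finset (Fin q), T.card ≤ Fintype.card τ → LinearIndependent (MvPolynomial ι L ⧸ J)
      fun (j : T) t => Ideal.Quotient.mk J (u j t)) ∧
    ∀ t, X (.inr t) ^ m * ∏ j, lin (u j) ∈ J.map (rename Sum.inl) ⊔ Ideal.span E

end Pool.Agent.Lib.MP_651af7_nt.Sc
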