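import Pool.Agent.Lib.MP_651af7_nt.Sc.Ifc

/-! From the generic fibre to the fibres over a dense open set. -/

namespace Pool.Agent.Lib.MP_651af7_nt.Sc

open MvPolynomial Pool.Agent.Lib.MP_8865d3_nt Ai Lr

theorem gn_one {L ι τ α : Type} [Field L] [Fintype τ] [Fintype α] {J : Ideal (MvPolynomial ι L)}
    (hJ : J.IsPrime) {u : α → τ → MvPolynomial ι L} {d : α → ℕ}
    (hu : ∀ j t, (u j t).IsHomogeneous (d j))
    (h : LinearIndependent (MvPolynomial ι L ⧸ J) fun j t => Ideal.Quotient.mk J (u j t)) :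
    ∃ (Δ : MvPolynomial ι L) (s : ℕ), Δ.IsHomogeneous s ∧ Δ ∉ J ∧
      ∀ a : ι → L, eval a Δ ≠ 0 → LinearIndependent L fun j t => eval a (u j t) := by
  rcases hc : Fintype.card α with _ | r
  · have := Fintype.card_eq_zero_iff.1 hc
    exact ⟨1, 0, isHomogeneous_one _ _, (Ideal.ne_top_iff_one _).1 hJ.ne_top,
      fun _ _ => linearIndependent_empty_type⟩
  let e := Fintype.equivFinOfCardEq hc
  have h1 := (linearIndependent_algebraMap_comp_iff
    (S := FractionRing (MvPolynomial ι L ⧸ J))).2 (h.comp _ e.symm.injective)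
  obtain ⟨S, hS⟩ := Function.ne_iff.1 (Bx.minors_ne_zero h1)
  refine ⟨Bx.minors (fun j => u (e.symm j)) S, _, Bx.minors_hom (fun j => hu _) S, fun h0 => hS ?_,
    fun a ha => ?_⟩
  · refine (Bx.map_minors ((algebraMap _ (FractionRing (MvPolynomial ι L ⧸ J))).comp
      (Ideal.Quotient.mk J)) (fun j => u (e.symm j)) S).symm.trans ?_
    rw [RingHom.comp_apply, Ideal.Quotient.eq_zero_iff_mem.2 h0, map_zero]
    rfl
  · rw [Bx.map_minors] at ha
    exact (linearIndependent_equiv e.symm).1 (LinearIndependent.of_comp (LinearMap.funLeft L L S)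
      (Matrix.linearIndependent_rows_of_det_ne_zero ha))

theorem Arr.dat {L ι : Type} [Field L] {n : ℕ} {J : Ideal (MvPolynomial ι L)} (hJ : J.IsPrime)
    {E : Set (MvPolynomial (ι ⊕ Fin (n + 1)) L)} (h : Arr J E) :
    ∃ s : Finset (MvPolynomial (ι ⊕ Fin (n + 1)) L), ↑s ⊆ E ∧ Dat J (Subtype.val : s → _) := by
  classical
  obtain ⟨q, m, u, d, h1, h2, h3⟩ := h
  simp only [Fintype.card_fin] at h2
  choose y hy z hz e using fun t => Submodule.mem_sup.1 (h3 t)
  choose s hs hs' using fun t => Submodule.mem_span_finite_of_mem_span (hz t)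
  choose Δ c k1 k2 k3 using fun T : {T : Finset (Fin q) // T.card ≤ n + 1} =>
    gn_one hJ (fun (j : T.1) t => h1 j t) (h2 T.1 T.2)
  refine ⟨Finset.univ.biUnion s, by simpa using hs, q, m, ∑ T, c T, u, d, ∏ T, Δ T, h1,
    fun j => ?_, IsHomogeneous.prod _ _ _ fun T _ => k1 T, fun h0 => ?_,
    fun a ha T _ hT => k3 ⟨T, hT⟩ a fun h0 => ha ?_, fun t => ?_⟩
  · obtain ⟨t, ht⟩ := Function.ne_iff.1 ((h2 {j} (by simp)).ne_zero ⟨j, by simp⟩)
    exact ⟨t, fun h0 => ht (Ideal.Quotient.eq_zero_iff_mem.2 h0)⟩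
  · obtain ⟨T, -, hT⟩ := hJ.prod_mem_iff.1 h0
    exact k2 T hT
  · rw [map_prod]
    exact Finset.prod_eq_zero (Finset.mem_univ _) h0
  · refine e t ▸ Submodule.add_mem_sup (hy t) (Submodule.span_mono (fun x hx => ?_) (hs' t))
    exact ⟨⟨x, Finset.mem_biUnion.2 ⟨t, Finset.mem_univ _, hx⟩⟩, rfl⟩

end Pool.Agent.Lib.MP_651af7_nt.Sc
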