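import Pool.Agent.Lib.MP_651af7_nt.Sc.Defs
import Pool.Agent.Lib.MP_8865d3_nt.Ai.Cur

/-! The pointwise form of the hypothesis on the generic fibre. -/

namespace Pool.Agent.Lib.MP_651af7_nt.Sc

open MvPolynomial Pool.Agent.Lib.MP_8865d3_nt Ai Lr

/-- A finite family `G` whose zeros lie in an arrangement that is in general position where the
form `Δ` does not vanish. -/
def Dat {L ι Λ : Type} [Field L] {n : ℕ} (J : Ideal (MvPolynomial ι L))
    (G : Λ → MvPolynomial (ι ⊕ Fin (n + 1)) L) : Prop :=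
  ∃ (q m s : ℕ) (u : Fin q → Fin (n + 1) → MvPolynomial ι L) (d : Fin q → ℕ)
    (Δ : MvPolynomial ι L), (∀ j t, (u j t).IsHomogeneous (d j)) ∧ (∀ j, ∃ t, u j t ∉ J) ∧
    Δ.IsHomogeneous s ∧ Δ ∉ J ∧
    (∀ a : ι → L, eval a Δ ≠ 0 → Ex.GenPos (fun j t => eval a (u j t)) Finset.univ) ∧
    ∀ t, X (.inr t) ^ m * ∏ j, lin (u j) ∈ pr J n ⊔ Ideal.span (Set.range G)

end Pool.Agent.Lib.MP_651af7_nt.Sc
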