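import Pool.Agent.Lib.MP_651af7_nt.Sc.Ifc
import Pool.Agent.Lib.MP_8865d3_nt.Ai.Aff

/-! The local height of a subscheme of an arrangement. -/

namespace Pool.Agent.Lib.MP_651af7_nt.Sc

open MvPolynomial Matrix Height NumberField Av Pool.Agent.Lib.MP_8865d3_nt Ai Lr
open As (Aff absA_all)
open Rt (Pl av mu)
open Ex (lx GenPos)
open Es (mn)
open Sv (cur)

variable {L ι κ β : Type} [Field L] [Fintype κ] [Fintype β] {n N q : ℕ}

theorem card_le_exp (m : ℕ) : (m : ℝ) ≤ Real.exp m :=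
  (le_add_of_nonneg_right zero_le_one).trans (Real.add_one_le_exp _)

theorem loc_le (v : AbsoluteValue L ℝ) {P : Type} [Fintype P] {w : L} {Q z : P → L} {l : P → β}
    {x : κ → L} {y : β → L} {c : ℝ} {e : ℕ} (h : w = ∑ p, Q p * (z p ^ e * y (l p)))
    (hQ : ∀ p, v (Q p) ≤ Real.exp c) (hz : ∀ p i, v (z p * x i) ≤ Real.exp c) (hw : w ≠ 0)
    (hx : x ≠ 0) (hy : y ≠ 0) : e * Real.log (nm v x) - Real.log (nm v y) ≤
      -Real.log (v w) + (Fintype.card P + (e + 1) * c) := by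
  have x0 := nm_pos v hx
  have y0 := nm_pos v hy
  have : Nonempty κ := ⟨(Function.ne_iff.1 hx).choose⟩
  obtain ⟨i, hi⟩ := exists_nm v x
  have h1 : v w * nm v x ^ e ≤ Real.exp (Fintype.card P + (e + 1) * c) * nm v y := by
    rw [Real.exp_add, mul_assoc]
    refine le_trans ?_ (mul_le_mul_of_nonneg_right (card_le_exp _) (by positivity))
    rw [h, ← nsmul_eq_mul, ← Finset.card_univ, ← Finset.sum_const]
    refine (mul_le_mul_of_nonneg_right (v.sum_le _ _) (by positivity)).trans ?_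
    rw [Finset.sum_mul]
    refine Finset.sum_le_sum fun p _ => ?_
    have h2 := pow_le_pow_left₀ (v.nonneg _) (hz p i) e
    rw [map_mul, hi, mul_pow, ← Real.exp_nat_mul] at h2
    rw [map_mul, map_mul, map_pow, add_mul, one_mul, Real.exp_add]
    have h3 := mul_le_mul (mul_le_mul h2 (hQ p) (v.nonneg _) (by positivity)) (le_nm v y (l p))
      (v.nonneg _) (by positivity)
    linarith
  have h2 := Real.log_le_log (mul_pos (v.pos hw) (pow_pos x0 e)) h1
  rw [Real.log_mul (v.pos hw).ne' (pow_pos x0 e).ne', Real.log_pow,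
    Real.log_mul (Real.exp_pos _).ne' y0.ne', Real.log_exp] at h2
  linarith

theorem genPos_map {Q r : ℕ} {u : Fin q → Fin r → L} {U : Fin Q → Fin r → L} (f : Fin q ↪ Fin Q)
    (hf : ∀ j, U (f j) = u j) (h : GenPos u Finset.univ) : GenPos U (Finset.univ.map f) := by
  intro I hI hc
  obtain ⟨I', -, rfl⟩ := Finset.subset_map_iff.1 hI
  have h1 : LinearIndepOn L (U ∘ f) I' := by
    rw [show U ∘ f = u from funext hf]
    exact h I' (Finset.subset_univ _) (by simpa using hc)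
  have h2 := h1.image_of_comp
  rwa [← Finset.coe_map] at h2

variable [NumberField L] [Fintype ι]

theorem bdA (A : AV L ι) (S : Finset (FinitePlace L)) {P : Type} [Fintype P]
    (R : P → MvPolynomial (ι ⊕ Fin (n + 1)) L) {ε : ℝ} (hε : 0 < ε) : ∃ C : ℝ, 0 ≤ C ∧
      ∀ a, Aff A A.ao a → ∀ (p : Pl S) (s : P) (t : Fin (n + 1) → L), (∀ j, av p (t j) ≤ 1) →
        av p (eval (Sum.elim a t) (R s)) ≤ Real.exp (ε * logHeight a + C) := by
  classical
  obtain ⟨C, hC, h⟩ := absA_all A A.ao S (Finset.univ.biUnion fun s => (cur (R s)).coeffs) hε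
  obtain ⟨m, hm⟩ := Finite.exists_le fun s => (cur (R s)).support.card
  refine ⟨C + m, by positivity, fun a ha p s t ht => ?_⟩
  rw [← ev_cur, eval₂_eq', ← add_assoc, Real.exp_add, mul_comm]
  refine ((av p).sum_le _ _).trans ((Finset.sum_le_card_nsmul _ _ _ fun μ hμ => ?_).trans
    ((nsmul_eq_mul _ _).trans_le (mul_le_mul_of_nonneg_right
      ((Nat.cast_le.2 (hm s)).trans (card_le_exp m)) (Real.exp_pos _).le)))
  rw [map_mul, map_prod]
  refine (mul_le_of_le_one_right ((av p).nonneg _) (Finset.prod_le_one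
    (fun _ _ => (av p).nonneg _) fun j _ => ?_)).trans (h a ha p _ (Finset.mem_biUnion.2
      ⟨s, Finset.mem_univ _, coeff_mem_coeffs μ (mem_support_iff.1 hμ)⟩)).1
  rw [map_pow]
  exact pow_le_one₀ ((av p).nonneg _) (ht j)

theorem lam_loc (A : AV L ι) {B : Fin N → Fin (n + 1) → MvPolynomial ι L}
    (u₀ : Fin (n + 1) → Fin N) {Λ : Type} [Fintype Λ] {ρ : Λ → κ → MvPolynomial (Fin N) L}
    (hρ : ∀ l, ∃ δ, ∀ i, (ρ l i).IsHomogeneous δ) {D : β → MvPolynomial κ L} {e m : ℕ}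
    (hD : ∀ l, (D l).IsHomogeneous e) {u : Fin q → Fin (n + 1) → MvPolynomial ι L}
    (H : ∀ t, X (.inr t) ^ m * ∏ j, lin (u j) ∈ pr A.I n ⊔ Ideal.span (Set.range
      fun p : Λ × β => aeval (fun i => lin (B i)) (aeval (ρ p.1) (D p.2))))
    (S : Finset (FinitePlace L)) {ε : ℝ} (hε : 0 < ε) : ∃ C : ℝ, ∀ (a : ι → L)
      (t : Fin (n + 1) → L) (y : Fin N → L) (x : κ → L) (s : Λ → L) (p : Pl S), Aff A A.ao a →
      eval a (mn (of B) u₀) ≠ 0 → t ≠ 0 → y = (of B).map (eval a) *ᵥ t → x ≠ 0 →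
      (∀ l i, eval y (ρ l i) = s l * x i) → (fun l => eval x (D l)) ≠ 0 →
      (∀ j, ∑ l, eval a (u j l) * t l ≠ 0) → Bx.lam (av p) D e x ≤
        ∑ j, lx (av p) y (∑ l, eval a (u j l) * t l) + (ε * logHeight a + C) := by
  classical
  choose δ hδ using hρ
  choose w hw g hg hwg using fun t => Submodule.mem_sup.1 (H t)
  choose Q hQ using fun t => Ideal.mem_span_range_iff_exists_fun.1 (hg t)
  obtain ⟨C₂, hC₂, H2⟩ := Ex.sup_cmp (K := L) N (n + 1)
  have hE : 0 < ε / (q * C₂ + (e + 1)) := by positivity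
  obtain ⟨C₀, hC₀, H0⟩ := bdA A S (Sum.elim (fun z : Fin (n + 1) × Λ × β => Q z.1 z.2)
    fun z : Λ × κ => aeval (fun i => lin (B i)) (ρ z.1 z.2)) hE
  obtain ⟨C₁, hC₁, H1⟩ := absA_all A A.ao S (insert (mn (of B) u₀)
    (Finset.univ.image fun z : Fin N × Fin (n + 1) => B z.1 z.2)) hE
  refine ⟨q * C₂ * (1 + C₁) + (Fintype.card (Λ × β) + (e + 1) * C₀),
    fun a t y x s p ha h0 t0 hy x0 hx xD hl => ?_⟩
  have hh := logHeight_nonneg a
  obtain ⟨i₀, hi⟩ := exists_nm (av p) t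
  have h1 := nm_pos (av p) t0
  have h2 : t i₀ ≠ 0 := (av p).pos_iff.1 (hi ▸ h1)
  have h3 : ∀ j, av p ((t i₀)⁻¹ * t j) ≤ 1 := fun j => by
    rw [map_mul, map_inv₀, hi]
    exact (inv_mul_le_one₀ h1).2 (le_nm _ t j)
  have e1 : ∀ c : Fin (n + 1) → MvPolynomial ι L, eval (Sum.elim a fun j => (t i₀)⁻¹ * t j)
      (lin c) = (t i₀)⁻¹ * ∑ l, eval a (c l) * t l := fun c => by
    rw [← aeval_eq_eval, ev_lin, Finset.mul_sum]
    exact Finset.sum_congr rfl fun l _ => mul_left_comm _ _ _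
  have e2 : ∀ P, eval (Sum.elim a fun j => (t i₀)⁻¹ * t j) (aeval (fun i => lin (B i)) P) =
      eval (fun i => (t i₀)⁻¹ * y i) P := fun P => by
    rw [← aeval_eq_eval, Bx.trans_aev, hy]
    simp only [aeval_eq_eval, e1]
    rfl
  have e3 : ∀ l i, eval (fun i => (t i₀)⁻¹ * y i) (ρ l i) = (t i₀)⁻¹ ^ δ l * s l * x i :=
    fun l i => by rw [eval_mul_of_hom (hδ l i), hx, mul_assoc]
  have e4 := congrArg (eval (Sum.elim a fun j => (t i₀)⁻¹ * t j)) (hwg i₀)
  rw [map_add, ev_pr ha.2 _ (hw i₀), zero_add, ← hQ, map_sum, map_mul, map_pow, eval_X,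
    Sum.elim_inr, inv_mul_cancel₀ h2, one_pow, one_mul, map_prod] at e4
  have e5 := loc_le (av p) (l := Prod.snd) (e := e) (x := x) (y := fun l => eval x (D l))
    (z := fun z : Λ × β => (t i₀)⁻¹ ^ δ z.1 * s z.1) (e4.symm.trans (Finset.sum_congr rfl
      fun z _ => by
        rw [map_mul, e2, ← aeval_eq_eval (fun i => _ * y i), Bx.trans_aev]
        simp only [aeval_eq_eval, e3, eval_mul_of_hom (hD _)]
        rfl))
    (fun z => H0 a ha p (.inl (i₀, z)) _ h3)
    (fun z i => by simpa only [Sum.elim_inr, e2, e3] using H0 a ha p (.inr (z.1, i)) _ h3)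
    (Finset.prod_ne_zero_iff.2 fun j _ => e1 _ ▸ mul_ne_zero (inv_ne_zero h2) (hl j)) x0 xD
  obtain ⟨y0, e6⟩ := H2 (av p) ((of B).map (eval a)) u₀ t _ (by positivity)
    (fun i j => (H1 a ha p _ (Finset.mem_insert_of_mem
      (Finset.mem_image_of_mem _ (Finset.mem_univ (i, j))))).1)
    (by rw [Es.mn_map]; exact (H1 a ha p _ (Finset.mem_insert_self _ _)).2 h0) t0
  rw [← hy] at y0 e6
  have e7 : -Real.log (av p (∏ j, eval (Sum.elim a fun j => (t i₀)⁻¹ * t j) (lin (u j)))) ≤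
      ∑ j, (lx (av p) y (∑ l, eval a (u j l) * t l) +
        C₂ * (1 + (ε / (q * C₂ + (e + 1)) * logHeight a + C₁))) := by
    simp only [e1]
    rw [map_prod, Real.log_prod fun j _ => ((av p).pos (mul_ne_zero (inv_ne_zero h2) (hl j))).ne',
      ← Finset.sum_neg_distrib]
    refine Finset.sum_le_sum fun j _ => ?_
    change _ ≤ Real.log (nm _ y / _) + _
    rw [Real.log_div (nm_pos _ y0).ne' ((av p).pos (hl j)).ne', map_mul, map_inv₀, hi,
      Real.log_mul (inv_ne_zero h1.ne') ((av p).pos (hl j)).ne', Real.log_inv]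
    have := (abs_le.1 e6).1
    simp only [nm]
    linarith
  rw [Finset.sum_add_distrib, Finset.sum_const, Finset.card_fin, nsmul_eq_mul] at e7
  have e8 : (q * C₂ + (e + 1)) * (ε / (q * C₂ + (e + 1)) * logHeight a) = ε * logHeight a := by
    field_simp
  change Real.log (nm _ x ^ e / nm _ fun l => eval x (D l)) ≤ _
  rw [Real.log_div (pow_pos (nm_pos _ x0) e).ne' (nm_pos _ xD).ne', Real.log_pow]
  linarith

end Pool.Agent.Lib.MP_651af7_nt.Sc
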