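import Pool.Agent.Lib.MP_651af7_nt.Sc.Gen
import Pool.Agent.Lib.MP_651af7_nt.Et.Pt
import Pool.Agent.Lib.MP_651af7_nt.Et.Dn
import Pool.Agent.Lib.MP_8865d3_nt.Ai.Desc

/-! The cover, its charts, the scroll and the arrangements over one number field. -/

namespace Pool.Agent.Lib.MP_651af7_nt.Sc

open MvPolynomial Bx Ds Av Et Module Height Pool.Agent.Lib.MP_8865d3_nt Ai Lr

theorem st_family {L ν κ : Type} [Field L] [Fintype ν] [Fintype κ]
    {I' : Ideal (MvPolynomial ν L)} {I : Ideal (MvPolynomial κ L)} {f : (ν → L) → κ → L}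
    (h : Etale I' I f) : ∃ (T : Type) (_ : Fintype T) (d : ℕ) (π : T → κ → MvPolynomial ν L),
      (∀ t, Chart I' f (d + 1) (π t)) ∧
      ∀ y ≠ 0, (∀ P ∈ I', eval y P = 0) → ∃ t l, eval y (π t l) ≠ 0 := by
  obtain ⟨s, h1, h2⟩ := (Submodule.fg_span_iff_fg_span_finset_subset (R := MvPolynomial ν L)
    {P | ∃ d π l, Chart I' f d π ∧ π l = P}).1 (IsNoetherian.noetherian _)
  choose d π l h3 h4 using fun P : s => h1 P.2
  refine ⟨s × ν, inferInstance, ∑ P, d P, fun t i => X t.2 ^ (∑ P, d P + 1 - d t.1) * π t.1 i,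
    fun t => ⟨fun i => ?_, fun y y0 hy => ?_⟩, fun y y0 hy => ?_⟩
  · have h5 := (isHomogeneous_X_pow (R := L) t.2 (∑ P, d P + 1 - d t.1)).mul ((h3 t.1).hom i)
    rwa [Nat.sub_add_cancel ((Finset.single_le_sum (fun _ _ => Nat.zero_le _)
      (Finset.mem_univ t.1)).trans (Nat.le_succ _))] at h5
  · obtain ⟨c, hc⟩ := (h3 t.1).val y y0 hy
    exact ⟨_, fun i => by rw [map_mul, hc, ← mul_assoc]⟩
  · obtain ⟨d', π', h5, l', h6⟩ := h.chart y0 hy
    obtain ⟨a, ha⟩ := Function.ne_iff.1 y0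
    by_contra! hc
    refine h6 ((h2.le.trans (Submodule.span_le.2 fun P hP => ?_) :
      _ ≤ RingHom.ker (eval y)) (Submodule.subset_span ⟨d', π', l', h5, rfl⟩))
    have h7 := hc (⟨P, hP⟩, a) (l ⟨P, hP⟩)
    rw [map_mul, map_pow, eval_X, h4] at h7
    exact (mul_eq_zero.1 h7).resolve_left (pow_ne_zero _ ha)

theorem st_theta {k K κ : Type} [Field k] [Field K] [Algebra k K] [Fintype κ]
    {I : Ideal (MvPolynomial κ k)} {Θ : MvPolynomial κ K} {t : ℕ}
    (h : Θ.IsHomogeneous t) (h' : Θ ∉ I.map (MvPolynomial.map (algebraMap k K))) :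
    ∃ Θ₀ : MvPolynomial κ k, Θ₀.IsHomogeneous t ∧ Θ₀ ∉ I ∧
      ∀ x : κ → k, eval x Θ₀ ≠ 0 → eval (fun a => algebraMap k K (x a)) Θ ≠ 0 := by
  obtain ⟨l, hl⟩ : ∃ l : K →ₗ[k] k, Av.trCw l Θ ∉ I := by
    by_contra! hc
    exact h' (tan2_mem hc)
  refine ⟨_, fun μ hμ => h fun h0 => hμ ?_, hl, fun x hx h0 => hx ?_⟩
  · rw [Av.coeff_trCw, h0, map_zero]
  · have e : eval x (Av.trCw l Θ) = l (eval (fun a => algebraMap k K (x a)) Θ) := by
      rw [Av.trCw, map_sum, eval_eq, map_sum]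
      refine Finset.sum_congr rfl fun μ _ => ?_
      rw [eval_monomial, mul_comm, ← smul_eq_mul, ← map_smul, Algebra.smul_def, mul_comm]
      simp [Finsupp.prod]
    rw [e, h0, map_zero]

section

variable {Ω ι ν Λ Λ' : Type} [Field Ω] {n : ℕ} {J : Ideal (MvPolynomial ι Ω)}
  {G : Λ → MvPolynomial (ι ⊕ Fin (n + 1)) Ω}

theorem st_mono {G' : Λ' → MvPolynomial (ι ⊕ Fin (n + 1)) Ω} (h : Dat J G)
    (hG : Set.range G ⊆ Set.range G') : Dat J G' := by
  obtain ⟨q, m, s, u, d, Δ, c1, c2, c3, c4, c5, c6⟩ := h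
  exact ⟨q, m, s, u, d, Δ, c1, c2, c3, c4, c5,
    fun t => sup_le_sup_left (Ideal.span_mono hG) _ (c6 t)⟩

theorem st_tw [CharZero Ω] [Fintype ι] [Fintype ν] {J' : Ideal (MvPolynomial ν Ω)}
    {a : ν → MvPolynomial ι Ω} {b : ι → MvPolynomial ν Ω} (hJ : J.IsPrime) (h1 : Inv J J' a b)
    (h2 : Inv J' J b a) (h : Dat J G) : Dat J' fun l => tw b n (G l) := by
  obtain ⟨q, m, s, u, d, Δ, c1, c2, c3, c4, c5, c6⟩ := h
  obtain ⟨db, eb⟩ := h2.hom
  have ev : ∀ (z : ν → Ω) (P : MvPolynomial ι Ω),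
      eval z (aeval b P) = eval (fun i => eval z (b i)) P := fun z P => by
    simpa only [aeval_eq_eval] using comp_aeval_apply b (aeval (R := Ω) z) P
  refine ⟨q, m, _, fun j t => aeval b (u j t), fun j => db * d j, aeval b Δ,
    fun j t => (c1 j t).aeval b eb, fun j => (c2 j).imp fun t => h1.pull hJ (c1 j t),
    c3.aeval b eb, h1.pull hJ c3 c4, fun z hz => ?_, fun t => ?_⟩
  · simpa only [ev] using c5 _ (ev z Δ ▸ hz)
  · have h3 : pr J n ⊔ Ideal.span (Set.range G) ≤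
        (pr J' n ⊔ Ideal.span (Set.range fun l => tw b n (G l))).comap (tw b n) :=
      sup_le (fun P hP => Ideal.mem_sup_left (tw_mem h2 P hP)) (Ideal.span_le.2 (by
        rintro _ ⟨l, rfl⟩
        exact Ideal.mem_sup_right (Ideal.subset_span ⟨l, rfl⟩)))
    have h4 := Ideal.mem_comap.1 (h3 (c6 t))
    rw [map_mul, map_pow, map_prod, Lr.tw, aeval_X, Sum.elim_inr, ← Lr.tw] at h4
    simpa only [desc_lin] using h4

theorem st_fin (h : Dat J G) :
    ∃ s : Set (MvPolynomial ι Ω), s.Finite ∧ ∀ (K : Type) [Field K] [Algebra K Ω],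
      s ⊆ Set.range (map (algebraMap K Ω)) → (dn K J).map (map (algebraMap K Ω)) = J →
      ∀ G', (∀ l, map (algebraMap K Ω) (G' l) = G l) → Dat (dn K J) G' := by
  obtain ⟨q, m, s, u, d, Δ, c1, c2, c3, c4, c5, c6⟩ := h
  refine ⟨insert Δ (Set.range fun p : Fin q × Fin (n + 1) => u p.1 p.2),
    (Set.finite_range _).insert Δ, fun K _ _ hs hm G' e1 => ?_⟩
  obtain ⟨Δ', rfl⟩ := hs (.inl rfl)
  choose u' hu using fun j t => hs (.inr ⟨(j, t), rfl⟩)
  obtain rfl : u = fun j t => map (algebraMap K Ω) (u' j t) := (funext₂ hu).symm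
  refine ⟨q, m, s, u', d, Δ', fun j t => wh_of_map (c1 j t), c2, wh_of_map c3, c4,
    fun z hz T h1 h2 => ?_, fun t => mem_of_map_mem (R := Ω) ?_⟩
  · have h3 := c5 (fun a => algebraMap K Ω (z a))
      (by rwa [← Function.comp_def, ← map_eval, map_ne_zero]) T h1 h2
    refine (linearIndependent_algebraMap_comp_iff (S := Ω)).1 ?_
    simpa only [Function.comp_def, map_eval] using h3
  · have h3 : pr J n ⊔ Ideal.span (Set.range G) ≤
        (pr (dn K J) n ⊔ Ideal.span (Set.range G')).map (map (algebraMap K Ω)) := by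
      refine sup_le ?_ (Ideal.span_le.2 ?_)
      · conv_lhs => rw [← hm]
        refine Ideal.map_le_iff_le_comap.2 (Ideal.map_le_iff_le_comap.2 fun P hP => ?_)
        rw [Ideal.mem_comap, Ideal.mem_comap, ← map_rename]
        exact Ideal.mem_map_of_mem _ (Ideal.mem_sup_left (Ideal.mem_map_of_mem _ hP))
      · rintro _ ⟨l, rfl⟩
        exact e1 l ▸ Ideal.mem_map_of_mem _ (Ideal.mem_sup_right (Ideal.subset_span ⟨l, rfl⟩))
    simpa only [map_mul, map_pow, map_prod, map_X, desc_map] using h3 (c6 t)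

theorem st_pt {k K κ : Type} [Field k] [Field K] [Algebra k K] [Algebra k Ω] [Algebra K Ω]
    [IsScalarTower k K Ω] [Fintype ν] [Fintype κ] {I' : Ideal (MvPolynomial ν Ω)}
    {f : (ν → Ω) → κ → Ω} {d : ℕ} {π : κ → MvPolynomial ν K}
    (h : Chart I' f d fun i => map (algebraMap K Ω) (π i)) {x : κ → k} (x0 : x ≠ 0) {y : ν → K}
    (hy : Ov I' f (fun i => algebraMap k Ω (x i)) fun a => algebraMap K Ω (y a)) :
    ∃ s : K, ∀ i, eval y (π i) = s * algebraMap k K (x i) := by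
  obtain ⟨i₀, hi₀⟩ := Function.ne_iff.1 x0
  obtain ⟨c, hc⟩ := h.ov (fun e => hi₀ ((map_eq_zero _).1 (congrFun e i₀))) hy
  simp only [← Function.comp_def (algebraMap K Ω), ← map_eval] at hc
  refine ⟨eval y (π i₀) / algebraMap k K (x i₀), fun i => ?_⟩
  rw [div_mul_eq_mul_div, eq_div_iff ((map_ne_zero _).2 hi₀)]
  refine (algebraMap K Ω).injective ?_
  rw [map_mul, map_mul, hc, hc, ← IsScalarTower.algebraMap_apply,
    ← IsScalarTower.algebraMap_apply, mul_right_comm]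

end

/-- All the data are defined over one number field. -/
theorem setupS {k ν κ ι β γ : Type} [Field k] [NumberField k] [Fintype ν] [Fintype κ] [Fintype ι]
    [Fintype β] [Fintype γ] {n g b : ℕ} {I' : Ideal (MvPolynomial ν (AlgebraicClosure k))}
    {I : Ideal (MvPolynomial κ k)} {f : (ν → AlgebraicClosure k) → κ → AlgebraicClosure k}
    (hI : Var I) (hs : Smooth I g) (hI' : Var I')
    (h : Etale I' (I.map (map (algebraMap k (AlgebraicClosure k)))) f)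
    {J : Ideal (MvPolynomial ι (AlgebraicClosure k))} {A : Type} [AddCommGroup A]
    {co : A → ι → AlgebraicClosure k} (hJ : Pts J co) (hm : HasModel co)
    {B : ν → Fin (n + 1) → MvPolynomial ι (AlgebraicClosure k)}
    (hB : ∀ i j, (B i j).IsHomogeneous b) {φ : ι → MvPolynomial ν (AlgebraicClosure k)}
    {χ : Fin (n + 1) → MvPolynomial ν (AlgebraicClosure k)}
    (hb : Bir I' J φ χ fun i => lin (B i)) {D : γ → β → MvPolynomial κ k}
    (hD : ∀ s, Arr J (aeval (fun i => lin (B i)) '' pull I' f (D s))) :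
    ∃ (K : IntermediateField k (AlgebraicClosure k)) (_ : NumberField K) (m b' : ℕ)
      (V : AV K (Fin m)) (I₁ : Ideal (MvPolynomial ν K))
      (B' : ν → Fin (n + 1) → MvPolynomial (Fin m) K) (φ' : Fin m → MvPolynomial ν K)
      (χ' : Fin (n + 1) → MvPolynomial ν K) (T : Type) (_ : Fintype T) (d : ℕ)
      (π : T → κ → MvPolynomial ν K) (Λ : Type) (_ : Fintype Λ) (ρ : Λ → κ → MvPolynomial ν K)
      (a : ℕ) (C : ℝ), Var I₁ ∧ Smooth I₁ g ∧ (∀ i j, (B' i j).IsHomogeneous b') ∧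
      Bir I₁ V.I φ' χ' (fun i => lin (B' i)) ∧ Cov I₁ (up K I) d π ∧
      (∀ t t' i j, π t i * π t' j - π t j * π t' i ∈ I₁) ∧
      (∀ l, ∃ δ, ∀ i, (ρ l i).IsHomogeneous δ) ∧
      (∀ s, Dat V.I fun p : Λ × β => aeval (fun i => lin (B' i)) (aeval (ρ p.1) (D s p.2))) ∧
      ∀ (H : MvPolynomial ν K) (t : ℕ), H.IsHomogeneous t → H ∉ I₁ →
      ∃ (Θ : MvPolynomial κ k) (t' : ℕ), Θ.IsHomogeneous t' ∧ Θ ∉ I ∧ ∀ x : κ → k, x ≠ 0 →
        (∀ P ∈ I, eval x P = 0) → eval x Θ ≠ 0 → ∃ (y : ν → K) (s : T → K) (s' : Λ → K), y ≠ 0 ∧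
        (∀ P ∈ I₁, eval y P = 0) ∧ eval y H ≠ 0 ∧
        (∀ t i, eval y (π t i) = s t * algebraMap k K (x i)) ∧
        (∀ l i, eval y (ρ l i) = s' l * algebraMap k K (x i)) ∧
        logHeight y ≤ a * logHeight (fun i => algebraMap k K (x i)) + C := by
  obtain ⟨m, J', co', Φ, h1, h2, h3, h4⟩ := hm
  have : Nonempty A := ⟨0⟩
  obtain ⟨a₀, b₀, i1, i2⟩ := hJ.birat h1 h3 h4
  have hb' := hb.trans hI'.isPrime hJ.prime h1.prime hJ.exists_X i1 i2
  obtain ⟨b₁, hb₁⟩ : ∃ b, X b ∉ I' := by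
    by_contra! hc
    obtain ⟨i, hi⟩ := hb.id.1
    exact hi (hb.map_pr _ (by simpa only [aeval_X] using hb.map _ (hc i)))
  choose S S1 S2 using fun s => (hD s).dat hJ.prime
  choose R R1 R2 using fun p : Σ s, S s => S1 p.1 p.2.2
  choose δ ρ l r1 r2 r3 using R1
  choose W W1 W2 using fun s => st_fin (st_tw hJ.prime i1 i2 (st_mono (S2 s)
    (G' := fun p : (Σ s, S s) × β => aeval (fun i => lin (B i)) (aeval (ρ p.1) (D s p.2))) (by
      rintro _ ⟨P, rfl⟩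
      exact ⟨(⟨s, P⟩, l ⟨s, P⟩), (congrArg _ (r3 ⟨s, P⟩).symm).trans (R2 ⟨s, P⟩)⟩)))
  obtain ⟨db, eb⟩ := i2.hom
  have hB₀ := fun i j => (hB i j).aeval b₀ eb
  simp only [comp_aeval_apply (fun i => lin (B i)) (tw b₀ n), desc_lin] at hb' W2
  generalize (fun l => aeval φ (a₀ l)) = φ₀ at hb'
  obtain ⟨T, hT, d, π, c1, c2⟩ := st_family h
  obtain ⟨L, _, Θ₁, t₁, a, l1, l2, l3⟩ := lift_pt (k := k) h hI' hI.prime (Ds.hom_map hI.hom) hb₁
  obtain ⟨s, hs'⟩ : I'.FG := IsNoetherian.noetherian I'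
  obtain ⟨s', hs''⟩ : J'.FG := IsNoetherian.noetherian J'
  have := (Set.finite_iUnion W1).to_subtype
  obtain ⟨K₁, _, k1, f1⟩ := ex_field L (Sum.elim (Sum.elim (Subtype.val : s → _) (Sum.elim φ₀ χ))
    (Sum.elim (fun p : T × κ => π p.1 p.2) fun p : (Σ s, S s) × κ => ρ p.1 p.2))
  obtain ⟨K₂, _, k2, f2⟩ := ex_field K₁ (Sum.elim (Sum.elim (Subtype.val : s' → _)
    (Subtype.val : (⋃ s, W s) → _)) fun p : ν × Fin (n + 1) => aeval b₀ (B p.1 p.2))
  obtain ⟨K, _, k3, f3⟩ := ex_field K₂ fun p : Fin m × Fin m => Φ p.1 p.2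
  have : NumberField K := NumberField.of_module_finite k K
  choose φ' hφ using fun j => f1 K (k2.trans k3) (.inl (.inr (.inl j)))
  choose χ' hχ using fun j => f1 K (k2.trans k3) (.inl (.inr (.inr j)))
  choose π' hπ using fun t i => f1 K (k2.trans k3) (.inr (.inl (t, i)))
  choose ρ' hρ using fun t i => f1 K (k2.trans k3) (.inr (.inr (t, i)))
  choose B' hB' using fun i j => f2 K k3 (.inr (i, j))
  choose Φ' hΦ using fun a b => f3 K le_rfl (a, b)
  simp only [Sum.elim_inr] at hB'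
  obtain rfl : φ₀ = fun j => map (algebraMap K _) (φ' j) := (funext hφ).symm
  obtain rfl : χ = fun j => map (algebraMap K _) (χ' j) := (funext hχ).symm
  obtain rfl : π = fun t i => map (algebraMap K _) (π' t i) := (funext₂ hπ).symm
  obtain rfl : ρ = fun t i => map (algebraMap K _) (ρ' t i) := (funext₂ hρ).symm
  obtain rfl : Φ = fun a b => map (algebraMap K _) (Φ' a b) := (funext₂ hΦ).symm
  have m1 := dn_map (K := K) hs'.symm fun P hP => f1 K (k2.trans k3) (.inl (.inl ⟨P, hP⟩))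
  have m2 := dn_map (K := K) hs''.symm fun P hP => f2 K k3 (.inl (.inl ⟨P, hP⟩))
  obtain ⟨V, hV⟩ := Et.exists_model h1 h2 m2
  obtain ⟨C, hC⟩ := l3 K ((k1.trans k2).trans k3)
  refine ⟨K, this, m, db * b, V, dn K I', B', φ', χ', T, hT, d, π', Σ s, S s, inferInstance, ρ',
    a, C, var_dn hI' m1, smooth_dn (fun y y0 hy => ?_) m1,
    fun i j => wh_of_map (Ω := AlgebraicClosure k) ((hB' i j).symm ▸ hB₀ i j),
    hV ▸ bir_dn m2 (by simpa only [desc_map, hB'] using hb'),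
    cov_dn h hI' hI ⟨b₁, hb₁⟩ m1 c1 c2, fun t t' i j => ?_,
    fun l => ⟨δ l, fun i => wh_of_map (r1 l i)⟩, fun s => hV ▸ W2 s K
      (fun P hP => f2 K k3 (.inl (.inr ⟨P, Set.mem_iUnion.2 ⟨s, hP⟩⟩))) m2 _ fun p => ?_,
    fun H t hH H0 => ?_⟩
  · have h5 := (zero_map (K := AlgebraicClosure k)).1 (h.map y y0 hy).2
    rw [h.rank y0 hy, tsp_map h5]
    exact hs _ (h.map y y0 hy).1 h5
  · simpa only [mem_dn, map_sub, map_mul] using (c1 t).prop hI' ⟨b₁, hb₁⟩ (c1 t') i j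
  · refine (map_bind₁ _ _ _).trans ?_
    simp only [desc_map, hB']
    exact congrArg _ (comp_aeval_apply (ρ' p.1)
      (mapAlgHom (IsScalarTower.toAlgHom k K (AlgebraicClosure k))) _)
  obtain ⟨Θ₂, t₂, n1, n2, n3⟩ := alg_ne h hI' (Ds.hom_map hI.hom) hb₁ (hH.map _) H0
  obtain ⟨Θ, u1, u2, u3⟩ := st_theta (l1.mul n1) fun e => (hI.prime.mem_or_mem e).elim l2 n2
  refine ⟨Θ, _, u1, u2, fun x x0 xz xΘ => ?_⟩
  have h5 := u3 x xΘ
  rw [map_mul, mul_ne_zero_iff] at h5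
  obtain ⟨y, y1, y2, y3⟩ := hC x x0 ((zero_map (K := AlgebraicClosure k)).2 (tan3_zero xz)) h5.1
  have x0' : (fun i => algebraMap k (AlgebraicClosure k) (x i)) ≠ 0 := fun e =>
    x0 (funext fun a => (map_eq_zero _).1 (congrFun e a))
  choose σ hσ using fun t => st_pt (c1 t) x0 y2
  choose σ' hσ' using fun t => st_pt ⟨r1 t, r2 t⟩ x0 y2
  exact ⟨y, σ, σ', Function.ne_iff.2 ⟨b₁, y1.trans_ne one_ne_zero⟩,
    fun P hP => (map_eq_zero _).1 ((ev_map y P).symm.trans (y2.2.1 _ hP)),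
    fun e => n3 _ _ x0' y2 (by rw [y1, map_one]) h5.2 (by rw [ev_map, e, map_zero]), hσ, hσ', y3⟩

end Pool.Agent.Lib.MP_651af7_nt.Sc
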