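import Pool.Agent.Lib.MP_651af7_nt.Sc.Core
import Pool.Agent.Lib.MP_651af7_nt.Sc.Cov
import Pool.Agent.Lib.MP_651af7_nt.Sc.Set
import Pool.Agent.Lib.MP_651af7_nt.Db.Pl
import Pool.Agent.Lib.MP_651af7_nt.Cu.VModel

/-! Vojta's inequality on varieties with an étale cover that is a scroll. -/

namespace Pool.Agent.Lib.MP_651af7_nt.Sc

open MvPolynomial Height NumberField Module Av Bx Ds Et Pool.Agent.Lib.MP_8865d3_nt Ai Lr
open Rt (Pl av mu)

theorem main {k κ ι β γ : Type} [Field k] [NumberField k] [Fintype κ] [Fintype ι] [Fintype β]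
    [Fintype γ] {N n g b : ℕ} {I : Ideal (MvPolynomial κ k)} (hI : Var I) (hs : Smooth I g)
    {I' : Ideal (MvPolynomial (Fin N) (AlgebraicClosure k))} (hI' : Var I')
    {f : (Fin N → AlgebraicClosure k) → κ → AlgebraicClosure k}
    (hf : Etale I' (I.map (map (algebraMap k (AlgebraicClosure k)))) f)
    {J : Ideal (MvPolynomial ι (AlgebraicClosure k))} (hJ : Abelian J)
    {B : Fin N → Fin (n + 1) → MvPolynomial ι (AlgebraicClosure k)}
    (hB : ∀ i j, (B i j).IsHomogeneous b) (hb : ∃ φ χ, BirP I' J φ χ fun i => lin (B i))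
    {e : γ → ℕ} {D : γ → β → MvPolynomial κ k} (hD : ∀ s l, (D s l).IsHomogeneous (e s))
    (hD' : ∀ s, Arr J (aeval (fun i => lin (B i)) '' pull I' f (D s))) {ε : ℝ} (hε : 0 < ε) :
    ∃ (Θ : MvPolynomial κ k) (t : ℕ), Θ.IsHomogeneous t ∧ Θ ∉ I ∧
      ∀ S : Finset (FinitePlace k), ∃ C : ℝ, ∀ (x : κ → k) (s : AbsoluteValue k ℝ → γ),
        x ≠ 0 → (∀ P ∈ I, eval x P = 0) → eval x Θ ≠ 0 → (∀ s, (fun l => eval x (D s l)) ≠ 0) →
        finrank k (tsp I x) = g + 1 ∧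
        ∀ w : Fin (g + 1) → κ → k, LinearIndependent k w → (∀ l, w l ∈ tsp I x) →
        (∑ v : InfinitePlace k, v.mult * lam v.1 (D (s v.1)) (e (s v.1)) x +
          ∑ v ∈ S, lam v.1 (D (s v.1)) (e (s v.1)) x) + hK x w ≤ ε * logHeight x + C := by
  obtain ⟨A, _, co, a1, a2⟩ := hJ
  obtain ⟨φ, χ, hb⟩ := hb
  obtain ⟨K, _, m, b', V, I₁, B', φ', χ', T, _, d, π, Λ, _, ρ, a, C₀, h1, h2, h3, h4, h5, h6, h7,
    h8, h9⟩ := setupS hI hs hI' hf a1 (Cu.model a1 a2) hB hb.bir hD'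
  have hε' : 0 < ε / (a + 1) := by positivity
  obtain ⟨H, t, t1, t2, t3⟩ := coreS (D := fun s l => map (algebraMap k K) (D s l)) V h1 h2 h3 h4
    h7 (fun s l => (hD s l).map _) (by simpa only [aeval_map_algebraMap] using h8) hε'
  obtain ⟨C₁, t4⟩ := hK_cov (g := g) h5 h6 h1.hom (var_up hI).hom
  obtain ⟨Θ, t', u1, u2, u3⟩ := h9 H t t1 t2
  refine ⟨Θ, t', u1, u2, fun S => ?_⟩
  obtain ⟨S', τ, ν, v1, v2⟩ := Db.exists_below (K := K) S
  obtain ⟨C, hC⟩ := t3 S'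
  have hn : (0 : ℝ) < finrank k K := Nat.cast_pos.2 finrank_pos
  have hne : ∀ {F : Type} [Field F] [Algebra k F] {α : Type} {y : α → k}, y ≠ 0 →
      (fun a => algebraMap k F (y a)) ≠ 0 := fun h h' =>
    h (funext fun a => (map_eq_zero _).1 (congrFun h' a))
  refine ⟨(ε / (a + 1) * C₀ + C + C₁) / finrank k K, fun x s x0 xz xΘ xD => ?_⟩
  have r1 : finrank k (tsp I x) = g + 1 := by
    rw [← finrank_tsp (F := AlgebraicClosure k)]
    exact hs _ (hne x0) (tan3_zero xz)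
  refine ⟨r1, fun w b1 b2 => ?_⟩
  obtain ⟨y, s₁, s₂, y0, yz, yH, y1, y2, yh⟩ := u3 x x0 xz xΘ
  obtain ⟨r2, e2⟩ := hC y _ s₂ (fun p => s (av (τ p))) y0 yz yH (hne x0) y2
    fun s => by simpa only [ev_map] using hne (xD s)
  let w' := Module.finBasisOfFinrankEq K _ r2
  have b3 := w'.linearIndependent.map' (tsp I₁ y).subtype (Submodule.ker_subtype _)
  have e3 := e2 _ b3 fun l => (w' l).2
  have e4 := t4 y _ s₁ y0 yz (hne x0) y1 r2 (by
      rw [up_eq, tsp_map (zero_map.1 fun P hP => zero_up xz P (map_le_up hP)), finrank_tsp, r1])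
    (fun l a => algebraMap k K (w l a)) _ (linearIndependent_algebraMap_comp_iff.2 b1)
    (fun l => tsp_up xz (b2 l)) b3 fun l => (w' l).2
  simp only [lam_pow (v1 _) x0 (xD _)] at e3
  rw [v2 fun p => lam (av p) (D (s (av p))) (e (s (av p))) x, Fintype.sum_sum_type] at e3
  rw [hK_alg] at e4
  rw [MP_651af7_nt.Final.logHeight_algebraMap] at yh
  have e5 := mul_le_mul_of_nonneg_left yh hε'.le
  have e6 : ε / (a + 1) * (a * (finrank k K * logHeight x) + finrank k K * logHeight x) =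
      ε * (finrank k K * logHeight x) := by field_simp
  have e7 := mul_nonneg hε'.le (mul_nonneg hn.le (logHeight_nonneg x))
  rw [← Finset.sum_coe_sort S]
  simp only [mu, av, Sum.elim_inl, Sum.elim_inr, Nat.cast_one, one_mul] at e3
  refine le_of_mul_le_mul_left ?_ hn
  rw [mul_add _ (ε * _), mul_div_cancel₀ _ hn.ne']
  linarith

end Pool.Agent.Lib.MP_651af7_nt.Sc
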